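import Pool.Agent.X141.FDGroup

/-!
# MP_7af27d_pr, Q1: yes

Let `G` be a topological group and `μ` an adapted symmetric Borel probability measure on `G`.
Every continuous `f : G → ℝ` which converges along `μ`-random walks and has a finite dimensional
orbit span is constant.  Neither amenability, local compactness or compact generation of `G`, nor
a growth condition on `f`, nor a moment condition on `μ` is needed.
-/

set_option autoImplicit false

namespace Pool.Agent.Results.MP_7af27d_pr.FiniteOrbitConstant

open MeasureTheory Pool.Agent.X141.FD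

/-- **MP_7af27d_pr, Q1.** -/
theorem result (G : Type*) [Group G] [TopologicalSpace G] [IsTopologicalGroup G]
    [MeasurableSpace G] [BorelSpace G] (μ : Measure G) [IsProbabilityMeasure μ]
    (hadapted : ¬ ∃ H : Subgroup G, IsClosed (H : Set G) ∧ H ≠ ⊤ ∧ μ (H : Set G) = 1)
    (hsymm : ∀ A : Set G, MeasurableSet A → μ (Inv.inv ⁻¹' A) = μ A)
    (f : G → ℝ) (hf : Continuous f) (hconv : ConvergesAlongWalks μ f)
    (hfin : FiniteDimensional ℝ (orbitSpan f)) :
    ∃ c : ℝ, ∀ x, f x = c :=
  constant_of_finite_orbit μ
    (fun H hH h1 => by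
      by_contra hne
      exact hadapted ⟨H, hH, hne, h1⟩) hsymm f hf hconv hfin

end Pool.Agent.Results.MP_7af27d_pr.FiniteOrbitConstant
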